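import Pool.Agent.R565.PU.Uni

/-!
# Open subsets of unirational sets are unirational
-/

set_option autoImplicit false

namespace Pool.Agent.T2H39.RE

open MvPolynomial
open Pool.Agent.R565.PU (Unirational)

/-- a polynomial at the points of a rational map -/
theorem exists_comp {K ι κ : Type} [Field K] (p : MvPolynomial ι K) (g : MvPolynomial κ K)
    (u : ι → MvPolynomial κ K) :
    ∃ (P : MvPolynomial κ K) (N : ℕ), ∀ t : κ → K, eval t g ≠ 0 →
      eval (fun i => eval t (u i) / eval t g) p = eval t P / eval t g ^ N := by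
  induction p using MvPolynomial.induction_on with
  | C a => exact ⟨C a, 0, fun t _ => by simp⟩
  | add p p' h h' =>
    obtain ⟨P, N, hP⟩ := h
    obtain ⟨P', N', hP'⟩ := h'
    refine ⟨P * g ^ N' + P' * g ^ N, N + N', fun t ht => ?_⟩
    rw [map_add, hP t ht, hP' t ht]
    simp only [map_add, map_mul, map_pow]
    field_simp
    ring
  | mul_X p i h =>
    obtain ⟨P, N, hP⟩ := h
    refine ⟨P * u i, N + 1, fun t ht => ?_⟩
    rw [map_mul, eval_X, hP t ht, map_mul]
    field_simp
    ring

/-- open subsets of unirational sets are unirational -/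
theorem unirational_open {K : Type} [Field K] {n : ℕ} {Y : Set (Fin n → K)}
    (hY : Unirational Y) (q : MvPolynomial (Fin n) K) :
    Unirational {y ∈ Y | eval y q ≠ 0} := by
  rcases hY with rfl | ⟨m, g, P, hg, himg, hden⟩
  · left
    ext y
    simp
  obtain ⟨Q, N, hQ⟩ := exists_comp q g P
  by_cases hne : {y ∈ Y | eval y q ≠ 0} = ∅
  · exact Or.inl hne
  right
  obtain ⟨y, hy, hyq⟩ := Set.nonempty_iff_ne_empty.2 hne
  have hex : ∃ t : Fin m → K, eval t g ≠ 0 ∧ eval t Q ≠ 0 := by
    by_contra hcon
    push Not at hcon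
    apply hyq
    refine hden q (fun t ht => ?_) y hy
    rw [hQ t ht, hcon t ht, zero_div]
  refine ⟨m, g * Q, fun k => P k * Q, ?_, ?_, ?_⟩
  · obtain ⟨t, ht, ht'⟩ := hex
    intro h0
    have : eval t (g * Q) = 0 := by rw [h0, map_zero]
    rw [map_mul] at this
    exact mul_ne_zero ht ht' this
  · intro t ht
    rw [map_mul] at ht
    have h1 := left_ne_zero_of_mul ht
    have h2 := right_ne_zero_of_mul ht
    have h3 : (fun k => eval t (P k * Q) / eval t (g * Q)) = fun k => eval t (P k) / eval t g := by
      funext k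
      rw [map_mul, map_mul, mul_div_mul_right _ _ h2]
    rw [h3]
    refine ⟨himg t h1, ?_⟩
    rw [hQ t h1]
    exact div_ne_zero h2 (pow_ne_zero _ h1)
  · intro h hh z hz
    have h1 := hden (h * q) (fun t ht => by
      rw [map_mul, hQ t ht]
      by_cases hQt : eval t Q = 0
      · rw [hQt, zero_div, mul_zero]
      · have h2 := hh t (by rw [map_mul]; exact mul_ne_zero ht hQt)
        have h3 : (fun k => eval t (P k * Q) / eval t (g * Q)) =
            fun k => eval t (P k) / eval t g := by
          funext k
          rw [map_mul, map_mul, mul_div_mul_right _ _ hQt]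
        rw [h3] at h2
        rw [h2, zero_mul]) z hz.1
    rw [map_mul] at h1
    exact (mul_eq_zero.1 h1).resolve_right hz.2

end Pool.Agent.T2H39.RE
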