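import Pool.Agent.R565.PU.Uni

/-!
# The matrices `X` with `Xᵀ A X = B` form a finite union of unirational sets
-/

set_option autoImplicit false

namespace Pool.Agent.T2H39.RE

open MvPolynomial
open Pool.Agent.R565.PU (Unirational)

/-- The matrix with the given entries. -/
def mat {K : Type} {m n : ℕ} (x : Fin (m * n) → K) : Matrix (Fin m) (Fin n) K :=
  Matrix.of fun i j => x (finProdFinEquiv (i, j))

/-- The representations of the form `B` by the form `A`: the `m × n` matrices `X` over `K` with
`Xᵀ A X = B`. -/
def Rep {K : Type} [Field K] {m n : ℕ} (A : Matrix (Fin m) (Fin m) K)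
    (B : Matrix (Fin n) (Fin n) K) : Set (Fin (m * n) → K) :=
  {x | (mat x).transpose * A * mat x = B}

theorem unirational_of {K : Type} [Field K] {n : ℕ} {Y : Set (Fin n → K)} {κ : Type} [Fintype κ]
    (g : MvPolynomial κ K) (P : Fin n → MvPolynomial κ K) (hg : g ≠ 0)
    (himg : ∀ t : κ → K, eval t g ≠ 0 → (fun k => eval t (P k) / eval t g) ∈ Y)
    (hsur : ∀ y ∈ Y, ∃ t : κ → K, eval t g ≠ 0 ∧ y = fun k => eval t (P k) / eval t g) :
    Unirational Y := by
  classical
  let e := Fintype.equivFin κ
  right
  refine ⟨Fintype.card κ, rename e g, fun k => rename e (P k), ?_, ?_, ?_⟩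
  · intro h
    apply hg
    apply rename_injective e e.injective
    rw [h, map_zero]
  · intro t ht
    rw [eval_rename] at ht
    have := himg (t ∘ e) ht
    simp only [eval_rename]
    exact this
  · intro h hh z hz
    obtain ⟨t, ht, rfl⟩ := hsur z hz
    have h1 : (t ∘ e.symm) ∘ e = t := by
      funext i
      simp
    have := hh (t ∘ e.symm) (by rw [eval_rename, h1]; exact ht)
    simp only [eval_rename, h1] at this
    exact this

section alg

variable {K : Type} [Field K] {m n : ℕ}

theorem rep_identity (A : Matrix (Fin m) (Fin m) K) (B : Matrix (Fin n) (Fin n) K) (ε : K)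
    (hA : A.transpose = ε • A) (hε : ε * ε = 1) (X₀ V : Matrix (Fin m) (Fin n) K)
    (u w : Matrix (Fin n) (Fin n) K) (h0 : X₀.transpose * A * X₀ = B)
    (hu : u + ε • u.transpose = V.transpose * A * V) (hw : u * w = V.transpose * A * X₀) :
    (X₀ - V * w).transpose * A * (X₀ - V * w) = B := by
  have h1 : X₀.transpose * A * V = ε • (u * w).transpose := by
    rw [hw, Matrix.transpose_mul, Matrix.transpose_mul, Matrix.transpose_transpose, hA,
      Matrix.smul_mul, Matrix.mul_smul, smul_smul, hε, one_smul, Matrix.mul_assoc]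
  have h2 : (X₀ - V * w).transpose * A * (X₀ - V * w) = X₀.transpose * A * X₀ -
      X₀.transpose * A * V * w - w.transpose * (V.transpose * A * X₀) +
      w.transpose * (V.transpose * A * V) * w := by
    rw [Matrix.transpose_sub, Matrix.transpose_mul]
    simp only [Matrix.sub_mul, Matrix.mul_sub, Matrix.mul_assoc]
    abel
  rw [h2, h0, h1, ← hw, ← hu, Matrix.transpose_mul]
  simp only [Matrix.mul_add, Matrix.add_mul, Matrix.mul_assoc, Matrix.smul_mul, Matrix.mul_smul]
  abel

end alg

section piece

variable {K : Type} [Field K] [CharZero K] {m n : ℕ}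

/-- parameters -/
abbrev Kap (m n : ℕ) := (Fin m × Fin n) ⊕ (Fin n × Fin n)

/-- generic matrix -/
noncomputable def gV (K : Type) [Field K] (m n : ℕ) :
    Matrix (Fin m) (Fin n) (MvPolynomial (Kap m n) K) :=
  Matrix.of fun i j => X (Sum.inl (i, j))

/-- generic matrix -/
noncomputable def gR (K : Type) [Field K] (m n : ℕ) :
    Matrix (Fin n) (Fin n) (MvPolynomial (Kap m n) K) :=
  Matrix.of fun i j => X (Sum.inr (i, j))

/-- constant matrix -/
noncomputable def cm {p q : ℕ} (κ : Type) (M : Matrix (Fin p) (Fin q) K) :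
    Matrix (Fin p) (Fin q) (MvPolynomial κ K) := M.map C

/-- the matrix `u` -/
noncomputable def gU (A : Matrix (Fin m) (Fin m) K) (ε : K) :
    Matrix (Fin n) (Fin n) (MvPolynomial (Kap m n) K) :=
  (C (1 / 2 : K) : MvPolynomial (Kap m n) K) •
      ((gV K m n).transpose * cm (Kap m n) A * gV K m n) +
    (gR K m n - (C ε : MvPolynomial (Kap m n) K) • (gR K m n).transpose)

/-- the matrix `a` -/
noncomputable def gA (A : Matrix (Fin m) (Fin m) K) (X₀ : Matrix (Fin m) (Fin n) K) :
    Matrix (Fin n) (Fin n) (MvPolynomial (Kap m n) K) :=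
  (gV K m n).transpose * cm (Kap m n) A * cm (Kap m n) X₀

theorem cm_eval {κ : Type} {p q : ℕ} (M : Matrix (Fin p) (Fin q) K) (t : κ → K) :
    (cm κ M).map (eval t) = M := by
  ext i j
  simp [cm]

theorem piece_unirational (A : Matrix (Fin m) (Fin m) K) (B : Matrix (Fin n) (Fin n) K) (ε : K)
    (hA : A.transpose = ε • A) (hε : ε * ε = 1) (x₀ : Fin (m * n) → K) (hx₀ : x₀ ∈ Rep A B) :
    Unirational {x ∈ Rep A B | (B - (mat x).transpose * A * mat x₀).det ≠ 0} := by
  classical
  set X₀ : Matrix (Fin m) (Fin n) K := mat x₀ with hX₀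
  by_cases hne : {x ∈ Rep A B | (B - (mat x).transpose * A * X₀).det ≠ 0} = ∅
  · exact Or.inl hne
  -- evaluation
  let tv : (Kap m n → K) → Matrix (Fin m) (Fin n) K := fun t => Matrix.of fun i j => t (Sum.inl (i, j))
  let tr : (Kap m n → K) → Matrix (Fin n) (Fin n) K := fun t => Matrix.of fun i j => t (Sum.inr (i, j))
  let tu : (Kap m n → K) → Matrix (Fin n) (Fin n) K := fun t =>
    (1 / 2 : K) • ((tv t).transpose * A * tv t) + (tr t - ε • (tr t).transpose)
  let ta : (Kap m n → K) → Matrix (Fin n) (Fin n) K := fun t => (tv t).transpose * A * X₀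
  have eV : ∀ t, (gV K m n).map (eval t) = tv t := by
    intro t
    ext i j
    simp [gV, tv]
  have eR : ∀ t, (gR K m n).map (eval t) = tr t := by
    intro t
    ext i j
    simp [gR, tr]
  have eU : ∀ t, (gU (n := n) A ε).map (eval t) = tu t := by
    intro t
    simp only [gU, tu]
    rw [← RingHom.mapMatrix_apply, map_add, map_sub]
    congr 1
    · rw [RingHom.mapMatrix_apply, Matrix.map_smul' (f := eval t) _ _ (fun a b => map_mul _ a b)]
      rw [Matrix.map_mul, Matrix.map_mul, cm_eval, eV, Matrix.transpose_map, eV]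
      simp
    · congr 1
      · rw [RingHom.mapMatrix_apply, eR]
      · rw [RingHom.mapMatrix_apply, Matrix.map_smul' (f := eval t) _ _ (fun a b => map_mul _ a b)]
        rw [Matrix.transpose_map, eR]
        simp
  have eA : ∀ t, (gA A X₀).map (eval t) = ta t := by
    intro t
    simp only [gA, ta]
    rw [Matrix.map_mul, Matrix.map_mul, cm_eval, cm_eval, Matrix.transpose_map, eV]
  let G : MvPolynomial (Kap m n) K := (gU (n := n) A ε).det * (gA A X₀).det
  let N : Matrix (Fin m) (Fin n) (MvPolynomial (Kap m n) K) :=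
    (gU (n := n) A ε).det • cm (Kap m n) X₀ - gV K m n * ((gU (n := n) A ε).adjugate * gA A X₀)
  let P : Fin (m * n) → MvPolynomial (Kap m n) K := fun k =>
    (gA A X₀).det * N (finProdFinEquiv.symm k).1 (finProdFinEquiv.symm k).2
  have eG : ∀ t, eval t G = (tu t).det * (ta t).det := by
    intro t
    rw [map_mul, RingHom.map_det, RingHom.map_det, RingHom.mapMatrix_apply, RingHom.mapMatrix_apply,
      eU, eA]
  have eN : ∀ t, N.map (eval t) = (tu t).det • X₀ - tv t * ((tu t).adjugate * ta t) := by
    intro t
    ext i j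
    have h1 : (gV K m n * ((gU (n := n) A ε).adjugate * gA A X₀)).map (eval t) =
        tv t * ((tu t).adjugate * ta t) := by
      rw [Matrix.map_mul, Matrix.map_mul, eV, eA, ← RingHom.mapMatrix_apply, RingHom.map_adjugate,
        RingHom.mapMatrix_apply, eU]
    have h2 := congrFun (congrFun h1 i) j
    rw [Matrix.map_apply] at h2
    have h3 : eval t (gU (n := n) A ε).det = (tu t).det := by
      rw [RingHom.map_det, RingHom.mapMatrix_apply, eU]
    have h4 := congrFun (congrFun (cm_eval (κ := Kap m n) X₀ t) i) j
    rw [Matrix.map_apply] at h4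
    simp only [N, Matrix.map_apply, Matrix.sub_apply, Matrix.smul_apply, smul_eq_mul, map_sub,
      map_mul, h2, h3, h4]
  -- the value
  have hval : ∀ t, eval t G ≠ 0 → mat (fun k => eval t (P k) / eval t G) =
      X₀ - tv t * ((tu t)⁻¹ * ta t) := by
    intro t ht
    rw [eG] at ht
    have hu := left_ne_zero_of_mul ht
    have ha := right_ne_zero_of_mul ht
    ext i j
    have h1 := congrFun (congrFun (eN t) i) j
    rw [Matrix.map_apply] at h1
    have h5 : eval t (gA A X₀).det = (ta t).det := by
      rw [RingHom.map_det, RingHom.mapMatrix_apply, eA]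
    show eval t ((gA A X₀).det * N (finProdFinEquiv.symm (finProdFinEquiv (i, j))).1
      (finProdFinEquiv.symm (finProdFinEquiv (i, j))).2) / eval t G = _
    rw [Equiv.symm_apply_apply, eG, map_mul, h1, h5]
    rw [Matrix.inv_def, Ring.inverse_eq_inv', Matrix.smul_mul, Matrix.mul_smul]
    simp only [Matrix.sub_apply, Matrix.smul_apply, smul_eq_mul]
    field_simp
  have hsym : ∀ t, tu t + ε • (tu t).transpose = (tv t).transpose * A * tv t := by
    intro t
    have h1 : ((tv t).transpose * A * tv t).transpose = ε • ((tv t).transpose * A * tv t) := by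
      rw [Matrix.transpose_mul, Matrix.transpose_mul, Matrix.transpose_transpose, hA,
        Matrix.smul_mul, Matrix.mul_smul, Matrix.mul_assoc]
    simp only [tu]
    rw [Matrix.transpose_add, Matrix.transpose_smul, h1, Matrix.transpose_sub,
      Matrix.transpose_smul, Matrix.transpose_transpose]
    simp only [smul_add, smul_sub, smul_smul]
    have h2 : ε * (1 / 2 * ε) = 1 / 2 := by
      linear_combination (1 / 2 : K) * hε
    rw [h2, hε, one_smul]
    have h3 : ((1 / 2 : K) • ((tv t).transpose * A * tv t) +
        (1 / 2 : K) • ((tv t).transpose * A * tv t)) = (tv t).transpose * A * tv t := by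
      rw [← add_smul]
      norm_num
    calc _ = ((1 / 2 : K) • ((tv t).transpose * A * tv t) +
        (1 / 2 : K) • ((tv t).transpose * A * tv t)) := by abel
      _ = _ := h3
  have hin : ∀ t, eval t G ≠ 0 → (fun k => eval t (P k) / eval t G) ∈
      {x ∈ Rep A B | (B - (mat x).transpose * A * X₀).det ≠ 0} := by
    intro t ht
    have hv := hval t ht
    rw [eG] at ht
    have hu := left_ne_zero_of_mul ht
    have ha := right_ne_zero_of_mul ht
    have huu : IsUnit (tu t).det := isUnit_iff_ne_zero.2 hu
    have hw : tu t * ((tu t)⁻¹ * ta t) = (tv t).transpose * A * X₀ := by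
      rw [← Matrix.mul_assoc, Matrix.mul_nonsing_inv _ huu, Matrix.one_mul]
    constructor
    · show (mat (m := m) (n := n) fun k => eval t (P k) / eval t G).transpose * A *
        (mat (m := m) (n := n) fun k => eval t (P k) / eval t G) = B
      rw [hv]
      exact rep_identity A B ε hA hε X₀ (tv t) (tu t) _ hx₀ (hsym t) hw
    · show (B - (mat (m := m) (n := n) fun k => eval t (P k) / eval t G).transpose * A * X₀).det ≠ 0
      rw [hv, Matrix.transpose_sub, Matrix.sub_mul, Matrix.sub_mul]
      have h6 : X₀.transpose * A * X₀ = B := hx₀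
      rw [h6, sub_sub_cancel]
      have h7 : (tv t * ((tu t)⁻¹ * ta t)).transpose * A * X₀ =
          ((tu t)⁻¹ * ta t).transpose * ta t := by
        rw [Matrix.transpose_mul]
        simp only [ta, Matrix.mul_assoc]
      rw [h7, Matrix.det_mul, Matrix.det_transpose, Matrix.det_mul]
      refine mul_ne_zero (mul_ne_zero ?_ ha) ha
      exact (Matrix.isUnit_nonsing_inv_det _ huu).ne_zero
  have hsur : ∀ y ∈ {x ∈ Rep A B | (B - (mat x).transpose * A * X₀).det ≠ 0},
      ∃ t : Kap m n → K, eval t G ≠ 0 ∧ y = fun k => eval t (P k) / eval t G := by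
    rintro y ⟨hy, hdet⟩
    have hy' : (mat y).transpose * A * mat y = B := hy
    have h6 : X₀.transpose * A * X₀ = B := hx₀
    set Y : Matrix (Fin m) (Fin n) K := mat y with hY
    let s : Matrix (Fin n) (Fin n) K :=
      (1 / 4 : K) • (X₀.transpose * A * Y - Y.transpose * A * X₀)
    let t : Kap m n → K := Sum.elim (fun p => (Y - X₀) p.1 p.2) fun p => s p.1 p.2
    have htv : tv t = Y - X₀ := by
      ext i j
      simp [tv, t]
    have htr : tr t = s := by
      ext i j
      simp [tr, t]
    have hta : ta t = Y.transpose * A * X₀ - B := by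
      simp only [ta]
      rw [htv, Matrix.transpose_sub, Matrix.sub_mul, Matrix.sub_mul, h6]
    have hT1 : (X₀.transpose * A * Y).transpose = ε • (Y.transpose * A * X₀) := by
      rw [Matrix.transpose_mul, Matrix.transpose_mul, Matrix.transpose_transpose, hA,
        Matrix.smul_mul, Matrix.mul_smul, Matrix.mul_assoc]
    have hT2 : (Y.transpose * A * X₀).transpose = ε • (X₀.transpose * A * Y) := by
      rw [Matrix.transpose_mul, Matrix.transpose_mul, Matrix.transpose_transpose, hA,
        Matrix.smul_mul, Matrix.mul_smul, Matrix.mul_assoc]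
    have htu : tu t = B - Y.transpose * A * X₀ := by
      simp only [tu]
      rw [htv, htr]
      have e1 : (Y - X₀).transpose * A * (Y - X₀) =
          B + B - Y.transpose * A * X₀ - X₀.transpose * A * Y := by
        rw [Matrix.transpose_sub]
        simp only [Matrix.sub_mul, Matrix.mul_sub]
        rw [hy', h6]
        abel
      have e2 : ε • s.transpose = -s := by
        simp only [s]
        rw [Matrix.transpose_smul, Matrix.transpose_sub, hT1, hT2]
        simp only [smul_sub, smul_smul]
        have h8 : ε * (1 / 4 * ε) = 1 / 4 := by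
          linear_combination (1 / 4 : K) * hε
        rw [h8]
        abel
      rw [e1, e2, sub_neg_eq_add]
      simp only [s]
      ext i j
      simp only [Matrix.add_apply, Matrix.sub_apply, Matrix.smul_apply, smul_eq_mul]
      ring
    have hG : eval t G ≠ 0 := by
      rw [eG, htu, hta]
      refine mul_ne_zero hdet ?_
      rw [← neg_sub, Matrix.det_neg]
      exact mul_ne_zero (pow_ne_zero _ (by simp)) hdet
    refine ⟨t, hG, ?_⟩
    have hv := hval t hG
    have huu : IsUnit (tu t).det := isUnit_iff_ne_zero.2 (by rw [htu]; exact hdet)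
    have h9 : (tu t)⁻¹ * ta t = -1 := by
      have : ta t = -tu t := by
        rw [hta, htu]
        abel
      rw [this, Matrix.mul_neg, Matrix.nonsing_inv_mul _ huu]
    rw [h9, htv, Matrix.mul_neg, Matrix.mul_one, sub_neg_eq_add, add_sub_cancel] at hv
    funext k
    have h10 := congrFun (congrFun hv (finProdFinEquiv.symm k).1) (finProdFinEquiv.symm k).2
    have h11 : ∀ z : Fin (m * n) → K, mat z (finProdFinEquiv.symm k).1
        (finProdFinEquiv.symm k).2 = z k := by
      intro z
      show z (finProdFinEquiv ((finProdFinEquiv.symm k).1, (finProdFinEquiv.symm k).2)) = z k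
      rw [Prod.mk.eta, Equiv.apply_symm_apply]
    rw [h11, hY, h11] at h10
    exact h10.symm
  have hG0 : G ≠ 0 := by
    obtain ⟨y, hy⟩ := Set.nonempty_iff_ne_empty.2 hne
    obtain ⟨t, ht, -⟩ := hsur y hy
    intro h
    rw [h, map_zero] at ht
    exact ht rfl
  exact unirational_of G P hG0 hin hsur

/-- The representations of a nondegenerate form form a finite union of unirational sets. -/
theorem rep_cover (A : Matrix (Fin m) (Fin m) K) (B : Matrix (Fin n) (Fin n) K) (ε : K)
    (hA : A.transpose = ε • A) (hε : ε * ε = 1) (hB : B.det ≠ 0) :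
    ∃ (k : ℕ) (Y : Fin k → Set (Fin (m * n) → K)), (∀ i, Unirational (Y i)) ∧
      Rep A B = ⋃ i, Y i := by
  classical
  let gX : Matrix (Fin m) (Fin n) (MvPolynomial (Fin (m * n)) K) :=
    Matrix.of fun i j => X (finProdFinEquiv (i, j))
  let gg : (Fin (m * n) → K) → MvPolynomial (Fin (m * n)) K := fun y =>
    (cm (Fin (m * n)) B - Matrix.transpose gX * cm (Fin (m * n)) A *
      cm (Fin (m * n)) (mat (m := m) (n := n) y)).det
  have egg : ∀ x y, eval x (gg y) = (B - (mat x).transpose * A * mat y).det := by
    intro x y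
    have eX : Matrix.map gX (eval x) = mat x := by
      ext i j
      simp [gX, mat]
    simp only [gg]
    rw [RingHom.map_det, map_sub, RingHom.mapMatrix_apply, RingHom.mapMatrix_apply, cm_eval,
      Matrix.map_mul, Matrix.map_mul, cm_eval, cm_eval, Matrix.transpose_map, eX]
  have hfg : (Ideal.span (gg '' Rep A B)).FG := (isNoetherianRing_iff_ideal_fg _).1 inferInstance _
  obtain ⟨F, hF, hspan⟩ := (Submodule.fg_span_iff_fg_span_finset_subset _).1 hfg
  have hch : ∀ f : F, ∃ y ∈ Rep A B, gg y = f.1 := fun f => by
    obtain ⟨y, hy, h⟩ := hF f.2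
    exact ⟨y, hy, h⟩
  choose yy hyy hgy using hch
  let e := F.equivFin
  refine ⟨F.card, fun i => {x ∈ Rep A B |
    (B - (mat x).transpose * A * mat (yy (e.symm i))).det ≠ 0}, fun i =>
      piece_unirational A B ε hA hε _ (hyy _), ?_⟩
  ext x
  simp only [Set.mem_iUnion]
  constructor
  · intro hx
    by_contra hcon
    push Not at hcon
    have h0 : ∀ f : F, eval x f.1 = 0 := by
      intro f
      have h1 := hcon (e f)
      rw [e.symm_apply_apply] at h1
      rw [← hgy f, egg]
      by_contra h2
      exact h1 ⟨hx, h2⟩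
    have hneg : (fun k => - x k) ∈ Rep A B := by
      have h3 : mat (m := m) (n := n) (fun k => - x k) = - mat x := by
        ext i j
        simp [mat]
      show (mat (m := m) (n := n) fun k => - x k).transpose * A *
        (mat (m := m) (n := n) fun k => - x k) = B
      rw [h3, Matrix.transpose_neg, Matrix.neg_mul, Matrix.neg_mul, Matrix.mul_neg, neg_neg]
      exact hx
    have h4 : eval x (gg fun k => - x k) = 0 := by
      have h5 : gg (fun k => - x k) ∈ Ideal.span (gg '' Rep A B) :=
        Ideal.subset_span ⟨_, hneg, rfl⟩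
      have h6 : Ideal.span (gg '' Rep A B) ≤ RingHom.ker (eval x) := by
        show Submodule.span _ _ ≤ _
        rw [hspan]
        exact Ideal.span_le.2 fun f hf => by
          rw [SetLike.mem_coe, RingHom.mem_ker]
          exact h0 ⟨f, hf⟩
      exact h6 h5
    rw [egg] at h4
    have h3 : mat (m := m) (n := n) (fun k => - x k) = - mat x := by
      ext i j
      simp [mat]
    have hx' : (mat x).transpose * A * mat x = B := hx
    rw [h3, Matrix.mul_neg, hx', sub_neg_eq_add, ← two_smul K B, Matrix.det_smul] at h4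
    exact mul_ne_zero (pow_ne_zero _ two_ne_zero) hB h4
  · rintro ⟨i, hi⟩
    exact hi.1

end piece

end Pool.Agent.T2H39.RE
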