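import Pool.Agent.TH783.CE.NF
import Pool.Agent.TH766.HP.Defs

/-!
# Every element of a number field has no pole above the large primes
-/

set_option autoImplicit false

namespace Pool.Agent.T2H39.RE

open Pool.Agent.TH766.HP Pool.Agent.TH783.CE IsDedekindDomain NumberField

theorem rich_gt {Q : Set ℕ} (hQ : Rich Q) (M : ℕ) : Rich {p | p ∈ Q ∧ M < p} := by
  intro s N hs
  obtain ⟨p, hp, hpQ, hN, h⟩ := hQ s (max N M) hs
  exact ⟨p, hp, ⟨hpQ, lt_of_le_of_lt (le_max_right _ _) hN⟩, lt_of_le_of_lt (le_max_left _ _) hN, h⟩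

theorem exists_noPole {K : Type} [Field K] [NumberField K] (Q : Set ℕ) (b : K) :
    ∃ M : ℕ, b ∈ NoPole K {p | p ∈ Q ∧ M < p} := by
  obtain ⟨D, hD, hint⟩ : ∃ D : ℤ, D ≠ 0 ∧ IsIntegral ℤ ((D : K) * b) := by
    have hb : IsAlgebraic ℤ b := by
      have h1 : IsAlgebraic ℚ b := Algebra.IsAlgebraic.isAlgebraic b
      exact (IsFractionRing.isAlgebraic_iff ℤ ℚ K).2 h1
    obtain ⟨D, hD, h⟩ := hb.exists_integral_multiple
    refine ⟨D, hD, ?_⟩
    rwa [zsmul_eq_mul] at h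
  refine ⟨D.natAbs, ?_⟩
  rintro v ⟨p, hp, ⟨-, hpD⟩, hpv⟩
  have hDv : ((D : 𝓞 K)) ∉ v.asIdeal := by
    intro hmem
    have hco : Nat.Coprime p D.natAbs := (Nat.Prime.coprime_iff_not_dvd hp).2 fun h =>
      not_lt.2 (Nat.le_of_dvd (Int.natAbs_pos.2 hD) h) hpD
    have hco2 : IsCoprime (p : ℤ) D := by
      rw [Int.isCoprime_iff_gcd_eq_one]
      simpa [Int.gcd] using hco
    obtain ⟨u, w, huw⟩ := hco2
    apply v.isPrime.ne_top
    rw [Ideal.eq_top_iff_one]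
    have h1 : ((u : 𝓞 K)) * (p : 𝓞 K) + (w : 𝓞 K) * (D : 𝓞 K) = 1 := by
      exact_mod_cast congrArg (fun z : ℤ => (z : 𝓞 K)) huw
    rw [← h1]
    exact v.asIdeal.add_mem (v.asIdeal.mul_mem_left _ hpv) (v.asIdeal.mul_mem_left _ hmem)
  have h2 : v.valuation K (((D : 𝓞 K)) : K) = 1 := by
    refine le_antisymm (v.valuation_le_one _) (not_lt.1 fun h => hDv ?_)
    exact (v.valuation_lt_one_iff_mem _).1 h
  obtain ⟨x, hx⟩ : ∃ x : 𝓞 K, (x : K) = (D : K) * b := ⟨⟨_, hint⟩, rfl⟩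
  have h3 : v.valuation K (x : K) ≤ 1 := v.valuation_le_one (K := K) x
  have h5 : (((D : 𝓞 K)) : K) = (D : K) := by simp
  rw [hx, ← h5, map_mul, h2, one_mul] at h3
  exact h3

end Pool.Agent.T2H39.RE
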