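import Pool.Agent.T2H67.WA.Core
import Pool.Agent.R565.PU.Uni

/-!
# R-equivalence with closed classes
-/

set_option autoImplicit false

namespace Pool.Agent.T2H39.RE

open MvPolynomial Pool.Agent.TH783.CE Pool.Agent.T2H67.WA
open Pool.Agent.R565.PU (Unirational)

/-- Two points of a set `S` of points over `K` are directly R-equivalent (Manin) if they are two
values of a rational map `r ↦ (u_i(r) / q(r))_i` of the line whose values are in `S`. (The zeros of
`q` are the points at which the map is not defined, or its value is not considered.) -/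
def Direct {K : Type} [Field K] {ι : Type} (S : Set (ι → K)) (x y : ι → K) : Prop :=
  ∃ (q : Polynomial K) (u : ι → Polynomial K) (s t : K), q.eval s ≠ 0 ∧ q.eval t ≠ 0 ∧
    (∀ r : K, q.eval r ≠ 0 → (fun i => (u i).eval r / q.eval r) ∈ S) ∧
    x = (fun i => (u i).eval s / q.eval s) ∧ y = fun i => (u i).eval t / q.eval t

/-- The equivalence relations on `S` which contain the direct R-equivalence (and so the
R-equivalence) and whose classes are closed in `S` in the Zariski topology: if `y ∈ S` is a zero of
all polynomials which vanish on the class of `x`, then `y` is in the class of `x`. -/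
def IsRClosed {K : Type} [Field K] {ι : Type} {S : Set (ι → K)} (E : Setoid S) : Prop :=
  (∀ x y : S, Direct S x.1 y.1 → E x y) ∧
  ∀ x y : S, (∀ f : MvPolynomial ι K, (∀ z : S, E x z → eval z.1 f = 0) → eval y.1 f = 0) → E x y

/-- The closed R-equivalence: the smallest equivalence relation on `S` which contains the
R-equivalence and has closed classes. -/
def rEquiv {K : Type} [Field K] {ι : Type} (S : Set (ι → K)) : Setoid S :=
  sInf {E | IsRClosed E}

/-- The points `(a, z)` over `K` of the variety `W_b`. -/
def Pts {K : Type} [Field K] (W : Piece K) (b : K) : Set (Fin (W.n + 1) → K) :=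
  {x | W.Sol (RingHom.id K) b (x 0) fun j => x j.succ}

theorem rEquiv_le {K : Type} [Field K] {ι : Type} {S : Set (ι → K)} {E : Setoid S}
    (hE : IsRClosed E) {x y : S} (h : rEquiv S x y) : E x y :=
  h E hE

theorem isRClosed_rEquiv {K : Type} [Field K] {ι : Type} (S : Set (ι → K)) :
    IsRClosed (rEquiv S) := by
  constructor
  · intro x y h E hE
    exact hE.1 x y h
  · intro x y h E hE
    apply hE.2 x y
    intro f hf
    exact h f fun z hz => hf z (hz E hE)

theorem rel_iff {K : Type} [Field K] (W : Piece K) (a b : K) :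
    W.Rel a b ↔ ∃ x ∈ Pts W b, x 0 = a := by
  constructor
  · rintro ⟨z, hz⟩
    refine ⟨Fin.cons (α := fun _ => K) a z, ?_, by simp⟩
    show W.Sol (RingHom.id K) b (Fin.cons (α := fun _ => K) a z 0)
      fun j => Fin.cons (α := fun _ => K) a z j.succ
    simpa using hz
  · rintro ⟨x, hx, rfl⟩
    exact ⟨fun j => x j.succ, hx⟩

/-- the equivalence relation given by a coordinate with values in a flat set -/
theorem isRClosed_ker {K : Type} [Field K] [CharZero K] {O : Set K} (hO : Flat O) {n : ℕ}
    {S : Set (Fin (n + 1) → K)} (hS : ∀ x ∈ S, x 0 ∈ O) :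
    IsRClosed (Setoid.ker fun x : S => x.1 0) := by
  constructor
  · rintro x y ⟨q, u, s, t, hs, ht, hr, hx, hy⟩
    rw [Setoid.ker_def]
    have hq : q ≠ 0 := by
      rintro rfl
      simp at hs
    obtain ⟨c, hc⟩ := hO q (u 0) hq fun r hr' => hS _ (hr r hr')
    rw [hx, hy]
    show (u 0).eval s / q.eval s = (u 0).eval t / q.eval t
    rw [hc, Polynomial.eval_mul, Polynomial.eval_mul, Polynomial.eval_C, Polynomial.eval_C,
      mul_div_assoc, mul_div_assoc, div_self hs, div_self ht]
  · intro x y h
    rw [Setoid.ker_def]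
    have := h (X 0 - C (x.1 0)) fun z hz => by
      rw [Setoid.ker_def] at hz
      rw [map_sub, eval_X, eval_C, hz, sub_self]
    rw [map_sub, eval_X, eval_C, sub_eq_zero] at this
    exact this.symm

/-- a coordinate with values in a flat set is constant on the classes -/
theorem const_of_flat {K : Type} [Field K] [CharZero K] {O : Set K} (hO : Flat O) {n : ℕ}
    {S : Set (Fin (n + 1) → K)} (hS : ∀ x ∈ S, x 0 ∈ O) {x y : S} (h : rEquiv S x y) :
    x.1 0 = y.1 0 := by
  have := rEquiv_le (isRClosed_ker hO hS) h
  rwa [Setoid.ker_def] at this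

theorem finite_values {K : Type} [Field K] [CharZero K] {O : Set K} (hO : Flat O) {n : ℕ}
    {S : Set (Fin (n + 1) → K)} (hS : ∀ x ∈ S, x 0 ∈ O) [Finite (Quotient (rEquiv S))] :
    {a : K | ∃ x ∈ S, x 0 = a}.Finite := by
  have : {a : K | ∃ x ∈ S, x 0 = a} ⊆ Set.range
      (Quotient.lift (fun x : S => x.1 0) fun x y h => const_of_flat hO hS h) := by
    rintro a ⟨x, hx, rfl⟩
    exact ⟨Quotient.mk _ ⟨x, hx⟩, rfl⟩
  exact (Set.finite_range _).subset this

theorem finite_rel {K : Type} [Field K] [CharZero K] {O : Set K} (hO : Flat O) (W : Piece K)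
    (b : K) (h : Finite (Quotient (rEquiv (Pts W b)))) (hW : ∀ a, W.Rel a b → a ∈ O) :
    {a : K | W.Rel a b}.Finite := by
  have h1 : ∀ x ∈ Pts W b, x 0 ∈ O := fun x hx => hW _ ((rel_iff W _ b).2 ⟨x, hx, rfl⟩)
  have h2 := finite_values hO h1
  exact h2.subset fun a ha => (rel_iff W a b).1 ha

/-- unirational sets consist of one class -/
theorem unirational_one {K : Type} [Field K] [CharZero K] {n : ℕ} {S : Set (Fin n → K)}
    (hS : Unirational S) {E : Setoid S} (hE : IsRClosed E) (x y : S) : E x y := by
  rcases hS with rfl | ⟨m, g, P, hg, himg, hden⟩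
  · exact absurd x.2 (Set.notMem_empty _)
  obtain ⟨t₀, ht₀⟩ : ∃ t₀ : Fin m → K, eval t₀ g ≠ 0 := by
    by_contra hcon
    push Not at hcon
    exact hg (MvPolynomial.funext fun t => by rw [hcon t, map_zero])
  let pt : (t : Fin m → K) → eval t g ≠ 0 → S := fun t ht => ⟨_, himg t ht⟩
  have key : ∀ (t : Fin m → K) (ht : eval t g ≠ 0), E (pt t₀ ht₀) (pt t ht) := by
    intro t ht
    apply hE.1
    let ln : Fin m → Polynomial K := fun i =>
      Polynomial.C (t₀ i) + Polynomial.X * Polynomial.C (t i - t₀ i)
    have hev : ∀ (F : MvPolynomial (Fin m) K) (r : K),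
        (aeval ln F : Polynomial K).eval r = eval (fun i => t₀ i + r * (t i - t₀ i)) F := by
      intro F r
      have h1 : (Polynomial.evalRingHom r).comp (aeval ln : MvPolynomial (Fin m) K →ₐ[K] _).toRingHom
          = (eval fun i => t₀ i + r * (t i - t₀ i) : MvPolynomial (Fin m) K →+* K) := by
        apply MvPolynomial.ringHom_ext
        · intro c
          simp
        · intro i
          simp [ln]
      exact congrArg (fun φ : MvPolynomial (Fin m) K →+* K => φ F) h1
    have h0 : (fun i => t₀ i + (0 : K) * (t i - t₀ i)) = t₀ := by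
      funext i
      ring
    have h1 : (fun i => t₀ i + (1 : K) * (t i - t₀ i)) = t := by
      funext i
      ring
    refine ⟨aeval ln g, fun k => aeval ln (P k), 0, 1, ?_, ?_, ?_, ?_, ?_⟩
    · rw [hev, h0]
      exact ht₀
    · rw [hev, h1]
      exact ht
    · intro r hr
      rw [hev] at hr
      have h2 := himg _ hr
      have h3 : (fun i => Polynomial.eval r (aeval ln (P i)) / Polynomial.eval r (aeval ln g)) =
          fun k => eval (fun i => t₀ i + r * (t i - t₀ i)) (P k) /
            eval (fun i => t₀ i + r * (t i - t₀ i)) g := by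
        funext k
        rw [hev, hev]
      rw [h3]
      exact h2
    · show (fun k => eval t₀ (P k) / eval t₀ g) = _
      funext k
      rw [hev, hev, h0]
    · show (fun k => eval t (P k) / eval t g) = _
      funext k
      rw [hev, hev, h1]
  have all : ∀ z : S, E (pt t₀ ht₀) z := by
    intro z
    apply hE.2
    intro f hf
    exact hden f (fun t ht => hf (pt t ht) (key t ht)) z.1 z.2
  exact E.trans (E.symm (all x)) (all y)

/-- the classes of a subset are in classes of the set -/
theorem rEquiv_mono {K : Type} [Field K] {ι : Type} {T S : Set (ι → K)} (hTS : T ⊆ S)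
    {E : Setoid S} (hE : IsRClosed E) :
    IsRClosed (Setoid.comap (fun x : T => (⟨x.1, hTS x.2⟩ : S)) E) := by
  constructor
  · rintro x y ⟨q, u, s, t, hs, ht, hr, hx, hy⟩
    rw [Setoid.comap_rel]
    exact hE.1 _ _ ⟨q, u, s, t, hs, ht, fun r hr' => hTS (hr r hr'), hx, hy⟩
  · intro x y h
    rw [Setoid.comap_rel]
    apply hE.2
    intro f hf
    refine h f fun z hz => ?_
    rw [Setoid.comap_rel] at hz
    exact hf _ hz

/-- a finite union of unirational sets has finitely many classes -/
theorem finite_classes {K : Type} [Field K] [CharZero K] {n k : ℕ} (Y : Fin k → Set (Fin n → K))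
    (hY : ∀ i, Unirational (Y i)) : Finite (Quotient (rEquiv (⋃ i, Y i))) := by
  classical
  let S : Set (Fin n → K) := ⋃ i, Y i
  have hmem : ∀ x : S, ∃ i, x.1 ∈ Y i := fun x => Set.mem_iUnion.1 x.2
  let c : S → Fin k := fun x => (hmem x).choose
  have hc : ∀ x : S, x.1 ∈ Y (c x) := fun x => (hmem x).choose_spec
  have hcl : ∀ x y : S, c x = c y → rEquiv S x y := by
    intro x y hxy
    have hsub : Y (c x) ⊆ S := Set.subset_iUnion Y (c x)
    have h1 := unirational_one (hY (c x)) (rEquiv_mono hsub (isRClosed_rEquiv S))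
      ⟨x.1, hc x⟩ ⟨y.1, hxy ▸ hc y⟩
    rw [Setoid.comap_rel] at h1
    exact h1
  refine Finite.of_injective (fun a : Quotient (rEquiv S) => c a.out) ?_
  intro a b hab
  have h := hcl _ _ hab
  rw [← Quotient.out_eq a, ← Quotient.out_eq b]
  exact Quotient.sound h

end Pool.Agent.T2H39.RE
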