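import Pool.Agent.T2H39.RE.Core

/-!
# Rational functions with values in a flat set are constant on the classes
-/

set_option autoImplicit false

namespace Pool.Agent.T2H39.RE

open MvPolynomial Pool.Agent.TH783.CE

/-- a polynomial along a rational curve -/
theorem exists_along {K ι : Type} [Field K] (p : MvPolynomial ι K) (q : Polynomial K)
    (u : ι → Polynomial K) :
    ∃ (P : Polynomial K) (N : ℕ), ∀ r : K, q.eval r ≠ 0 →
      eval (fun i => (u i).eval r / q.eval r) p = P.eval r / q.eval r ^ N := by
  induction p using MvPolynomial.induction_on with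
  | C a => exact ⟨Polynomial.C a, 0, fun r _ => by simp⟩
  | add p p' h h' =>
    obtain ⟨P, N, hP⟩ := h
    obtain ⟨P', N', hP'⟩ := h'
    refine ⟨P * q ^ N' + P' * q ^ N, N + N', fun r hr => ?_⟩
    rw [map_add, hP r hr, hP' r hr]
    simp only [Polynomial.eval_add, Polynomial.eval_mul, Polynomial.eval_pow]
    field_simp
    ring
  | mul_X p i h =>
    obtain ⟨P, N, hP⟩ := h
    refine ⟨P * u i, N + 1, fun r hr => ?_⟩
    rw [map_mul, eval_X, hP r hr]
    simp only [Polynomial.eval_mul]
    field_simp
    ring

/-- the equivalence relation given by a rational function with values in a flat set -/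
theorem isRClosed_fun {K ι : Type} [Field K] [CharZero K] {O : Set K} (hO : Flat O)
    {S : Set (ι → K)} (p q : MvPolynomial ι K) (hq : ∀ x ∈ S, eval x q ≠ 0)
    (h : ∀ x ∈ S, eval x p / eval x q ∈ O) :
    IsRClosed (Setoid.ker fun x : S => eval x.1 p / eval x.1 q) := by
  constructor
  · rintro x y ⟨d, u, s, t, hs, ht, hr, hx, hy⟩
    rw [Setoid.ker_def]
    obtain ⟨P, N, hP⟩ := exists_along p d u
    obtain ⟨Q, M, hQ⟩ := exists_along q d u
    have hQ0 : ∀ r, d.eval r ≠ 0 → Q.eval r ≠ 0 := by
      intro r hr' h0
      have := hq _ (hr r hr')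
      rw [hQ r hr', h0, zero_div] at this
      exact this rfl
    have hQs : Q ≠ 0 := by
      rintro rfl
      exact hQ0 s hs (by simp)
    have hd : d ≠ 0 := by
      rintro rfl
      simp at hs
    have key : ∀ r, d.eval r ≠ 0 → eval (fun i => (u i).eval r / d.eval r) p /
        eval (fun i => (u i).eval r / d.eval r) q =
        (P * d ^ (M + 1)).eval r / (Q * d ^ (N + 1)).eval r := by
      intro r hr'
      have h1 := hQ0 r hr'
      rw [hP r hr', hQ r hr']
      simp only [Polynomial.eval_mul, Polynomial.eval_pow]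
      field_simp
      ring
    obtain ⟨c, hc⟩ := hO (Q * d ^ (N + 1)) (P * d ^ (M + 1))
      (mul_ne_zero hQs (pow_ne_zero _ hd)) fun r hr' => by
        have h1 : d.eval r ≠ 0 := by
          intro h0
          apply hr'
          simp [h0]
        rw [← key r h1]
        exact h _ (hr r h1)
    have hval : ∀ r, d.eval r ≠ 0 → eval (fun i => (u i).eval r / d.eval r) p /
        eval (fun i => (u i).eval r / d.eval r) q = c := by
      intro r hr'
      rw [key r hr', hc, Polynomial.eval_mul, Polynomial.eval_C, mul_div_assoc, div_self, mul_one]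
      rw [Polynomial.eval_mul, Polynomial.eval_pow]
      exact mul_ne_zero (hQ0 r hr') (pow_ne_zero _ hr')
    show eval x.1 p / eval x.1 q = eval y.1 p / eval y.1 q
    rw [hx, hy, hval s hs, hval t ht]
  · intro x y h1
    rw [Setoid.ker_def]
    have hx := hq _ x.2
    have hy := hq _ y.2
    have h2 := h1 (p * C (eval x.1 q) - q * C (eval x.1 p)) fun z hz => by
      rw [Setoid.ker_def] at hz
      have hz' : eval x.1 p / eval x.1 q = eval z.1 p / eval z.1 q := hz
      have hz2 := hq _ z.2
      rw [div_eq_div_iff hx hz2] at hz'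
      rw [map_sub, map_mul, map_mul, eval_C, eval_C]
      linear_combination -hz'
    rw [map_sub, map_mul, map_mul, eval_C, eval_C] at h2
    show eval x.1 p / eval x.1 q = eval y.1 p / eval y.1 q
    rw [div_eq_div_iff hx hy]
    linear_combination -h2

/-- a rational function with values in a flat set is constant on the classes -/
theorem const_fun {K ι : Type} [Field K] [CharZero K] {O : Set K} (hO : Flat O)
    {S : Set (ι → K)} (p q : MvPolynomial ι K) (hq : ∀ x ∈ S, eval x q ≠ 0)
    (h : ∀ x ∈ S, eval x p / eval x q ∈ O) {x y : S} (hxy : rEquiv S x y) :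
    eval x.1 p / eval x.1 q = eval y.1 p / eval y.1 q := by
  have := rEquiv_le (isRClosed_fun hO p q hq h) hxy
  rwa [Setoid.ker_def] at this

theorem finite_fun {K ι : Type} [Field K] [CharZero K] {O : Set K} (hO : Flat O)
    {S : Set (ι → K)} (p q : MvPolynomial ι K) (hq : ∀ x ∈ S, eval x q ≠ 0)
    (h : ∀ x ∈ S, eval x p / eval x q ∈ O) [Finite (Quotient (rEquiv S))] :
    {a : K | ∃ x ∈ S, eval x p / eval x q = a}.Finite := by
  have : {a : K | ∃ x ∈ S, eval x p / eval x q = a} ⊆ Set.range
      (Quotient.lift (fun x : S => eval x.1 p / eval x.1 q)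
        fun x y hxy => const_fun hO p q hq h hxy) := by
    rintro a ⟨x, hx, rfl⟩
    exact ⟨Quotient.mk _ ⟨x, hx⟩, rfl⟩
  exact (Set.finite_range _).subset this

end Pool.Agent.T2H39.RE
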