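import Pool.Agent.T2H39.RE.Core

/-!
# Points over `F(t)` of varieties over `F`
-/

set_option autoImplicit false

namespace Pool.Agent.T2H39.RE

open MvPolynomial

/-- The points `v` with coordinates in the extension `L` of `F` with `f_j(v) = 0` for all `j` and
`g(v) ≠ 0`. -/
def VPts {F : Type} [Field F] (L : Type) [Field L] [Algebra F L] {n k : ℕ}
    (f : Fin k → MvPolynomial (Fin n) F) (g : MvPolynomial (Fin n) F) : Set (Fin n → L) :=
  {v | (∀ j, aeval v (f j) = 0) ∧ aeval v g ≠ 0}

theorem exists_gen {F ι : Type} [Field F] (p : MvPolynomial ι F) (q : Polynomial F)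
    (u : ι → Polynomial F) :
    ∃ (P : Polynomial F) (N : ℕ), ∀ (L : Type) [Field L] (φ : Polynomial F →+* L), φ q ≠ 0 →
      eval₂ (φ.comp Polynomial.C) (fun i => φ (u i) / φ q) p = φ P / φ q ^ N := by
  induction p using MvPolynomial.induction_on with
  | C a => exact ⟨Polynomial.C a, 0, fun L _ φ _ => by simp⟩
  | add p p' h h' =>
    obtain ⟨P, N, hP⟩ := h
    obtain ⟨P', N', hP'⟩ := h'
    refine ⟨P * q ^ N' + P' * q ^ N, N + N', fun L _ φ hr => ?_⟩
    rw [eval₂_add, hP L φ hr, hP' L φ hr]
    simp only [map_add, map_mul, map_pow]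
    field_simp
    ring
  | mul_X p i h =>
    obtain ⟨P, N, hP⟩ := h
    refine ⟨P * u i, N + 1, fun L _ φ hr => ?_⟩
    rw [eval₂_mul, eval₂_X, hP L φ hr, map_mul]
    field_simp
    ring

section

variable {F : Type} [Field F] {ι : Type}

theorem eval_gen (p : MvPolynomial ι F) (q : Polynomial F) (u : ι → Polynomial F) :
    ∃ (P : Polynomial F) (N : ℕ),
      (∀ r : F, q.eval r ≠ 0 →
        aeval (fun i => (u i).eval r / q.eval r) p = P.eval r / q.eval r ^ N) ∧
      (q ≠ 0 → aeval (fun i => algebraMap (Polynomial F) (RatFunc F) (u i) /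
        algebraMap (Polynomial F) (RatFunc F) q) p = algebraMap (Polynomial F) (RatFunc F) P /
          algebraMap (Polynomial F) (RatFunc F) q ^ N) := by
  obtain ⟨P, N, h⟩ := exists_gen p q u
  refine ⟨P, N, fun r hr => ?_, fun hq => ?_⟩
  · have h1 := h F (Polynomial.evalRingHom r) hr
    have h2 : (Polynomial.evalRingHom r).comp Polynomial.C = algebraMap F F := by
      ext a
      simp
    rw [h2] at h1
    exact h1
  · have hinj : Function.Injective (algebraMap (Polynomial F) (RatFunc F)) :=
      IsFractionRing.injective (Polynomial F) (RatFunc F)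
    have hq' : algebraMap (Polynomial F) (RatFunc F) q ≠ 0 := by
      rw [Ne, map_eq_zero_iff _ hinj]
      exact hq
    have h1 := h (RatFunc F) (algebraMap (Polynomial F) (RatFunc F)) hq'
    have h2 : (algebraMap (Polynomial F) (RatFunc F)).comp Polynomial.C =
        algebraMap F (RatFunc F) := rfl
    rw [h2] at h1
    exact h1

end

section

variable {F : Type} [Field F] [CharZero F] {n k : ℕ}
  (f : Fin k → MvPolynomial (Fin n) F) (g : MvPolynomial (Fin n) F)

/-- a rational curve in the set of the points over `F` is a point over `F(t)` -/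
theorem curve_mem (q : Polynomial F) (u : Fin n → Polynomial F) (s : F) (hs : q.eval s ≠ 0)
    (h : ∀ r : F, q.eval r ≠ 0 → (fun i => (u i).eval r / q.eval r) ∈ VPts F f g) :
    (fun i => algebraMap (Polynomial F) (RatFunc F) (u i) /
        algebraMap (Polynomial F) (RatFunc F) q) ∈ VPts (RatFunc F) f g := by
  have hinj : Function.Injective (algebraMap (Polynomial F) (RatFunc F)) :=
    IsFractionRing.injective (Polynomial F) (RatFunc F)
  have hq : q ≠ 0 := by
    rintro rfl
    simp at hs
  have hq' : algebraMap (Polynomial F) (RatFunc F) q ≠ 0 := by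
    rw [Ne, map_eq_zero_iff _ hinj]
    exact hq
  constructor
  · intro j
    obtain ⟨P, N, h1, h2⟩ := eval_gen (f j) q u
    rw [h2 hq]
    have hP : P * q = 0 := by
      apply Polynomial.funext
      intro r
      rw [Polynomial.eval_mul, Polynomial.eval_zero]
      by_cases hr : q.eval r = 0
      · rw [hr, mul_zero]
      · have h3 := (h r hr).1 j
        rw [h1 r hr, div_eq_zero_iff] at h3
        rw [h3.resolve_right (pow_ne_zero _ hr), zero_mul]
    rw [(mul_eq_zero.1 hP).resolve_right hq, map_zero, zero_div]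
  · obtain ⟨P, N, h1, h2⟩ := eval_gen g q u
    rw [h2 hq]
    refine div_ne_zero ?_ (pow_ne_zero _ hq')
    rw [Ne, map_eq_zero_iff _ hinj]
    rintro rfl
    have h3 := (h s hs).2
    rw [h1 s hs] at h3
    simp at h3

/-- specialization -/
theorem spec_mem (v : Fin n → RatFunc F) (hv : v ∈ VPts (RatFunc F) f g) :
    ∃ (q : Polynomial F) (u : Fin n → Polynomial F) (r : F), q.eval r ≠ 0 ∧
      (∀ i, v i = algebraMap (Polynomial F) (RatFunc F) (u i) /
        algebraMap (Polynomial F) (RatFunc F) q) ∧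
      (fun i => (u i).eval r / q.eval r) ∈ VPts F f g := by
  classical
  have hinj : Function.Injective (algebraMap (Polynomial F) (RatFunc F)) :=
    IsFractionRing.injective (Polynomial F) (RatFunc F)
  obtain ⟨⟨q, hq0⟩, hq⟩ := IsLocalization.exist_integer_multiples_of_finset
    (nonZeroDivisors (Polynomial F)) (Finset.univ.image v)
  have hq1 : q ≠ 0 := nonZeroDivisors.ne_zero hq0
  have hq' : algebraMap (Polynomial F) (RatFunc F) q ≠ 0 := by
    rw [Ne, map_eq_zero_iff _ hinj]
    exact hq1
  have hu : ∀ i, ∃ w : Polynomial F, algebraMap (Polynomial F) (RatFunc F) w =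
      algebraMap (Polynomial F) (RatFunc F) q * v i := by
    intro i
    obtain ⟨w, hw⟩ := hq (v i) (Finset.mem_image_of_mem v (Finset.mem_univ i))
    refine ⟨w, ?_⟩
    rw [hw, Algebra.smul_def]
  choose u hu using hu
  have hvi : ∀ i, v i = algebraMap (Polynomial F) (RatFunc F) (u i) /
      algebraMap (Polynomial F) (RatFunc F) q := by
    intro i
    rw [hu i, mul_div_cancel_left₀ _ hq']
  have hv' : v = fun i => algebraMap (Polynomial F) (RatFunc F) (u i) /
      algebraMap (Polynomial F) (RatFunc F) q := funext hvi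
  obtain ⟨Pg, Ng, hg1, hg2⟩ := eval_gen g q u
  have hPg : Pg ≠ 0 := by
    rintro rfl
    have h3 := hv.2
    rw [hv', hg2 hq1, map_zero, zero_div] at h3
    exact h3 rfl
  obtain ⟨r, hr⟩ : ∃ r : F, (Pg * q).eval r ≠ 0 := by
    by_contra hcon
    push Not at hcon
    exact mul_ne_zero hPg hq1 (Polynomial.funext fun r => by rw [hcon r, Polynomial.eval_zero])
  rw [Polynomial.eval_mul] at hr
  have hr1 := left_ne_zero_of_mul hr
  have hr2 := right_ne_zero_of_mul hr
  refine ⟨q, u, r, hr2, hvi, ?_, ?_⟩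
  · intro j
    obtain ⟨P, N, h1, h2⟩ := eval_gen (f j) q u
    rw [h1 r hr2]
    have h3 := hv.1 j
    rw [hv', h2 hq1, div_eq_zero_iff] at h3
    have h4 := h3.resolve_right (pow_ne_zero _ hq')
    rw [map_eq_zero_iff _ hinj] at h4
    rw [h4, Polynomial.eval_zero, zero_div]
  · rw [hg1 r hr2]
    exact div_ne_zero hr1 (pow_ne_zero _ hr2)

theorem eq_C (q u : Polynomial F) (hq : q ≠ 0) (c : F)
    (h : algebraMap (Polynomial F) (RatFunc F) u / algebraMap (Polynomial F) (RatFunc F) q =
      RatFunc.C c) (r : F) (hr : q.eval r ≠ 0) : u.eval r / q.eval r = c := by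
  have hinj : Function.Injective (algebraMap (Polynomial F) (RatFunc F)) :=
    IsFractionRing.injective (Polynomial F) (RatFunc F)
  have hq' : algebraMap (Polynomial F) (RatFunc F) q ≠ 0 := by
    rw [Ne, map_eq_zero_iff _ hinj]
    exact hq
  rw [div_eq_iff hq', ← RatFunc.algebraMap_C, ← map_mul] at h
  rw [hinj h, Polynomial.eval_mul, Polynomial.eval_C, mul_div_assoc, div_self hr, mul_one]

end

section

variable {F : Type} [Field F] [CharZero F] {n k : ℕ}
  (f : Fin k → MvPolynomial (Fin (n + 1)) F) (g : MvPolynomial (Fin (n + 1)) F)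

theorem isRClosed_par (H : ∀ v ∈ VPts (RatFunc F) f g, ∃ c : F, RatFunc.C c = v 0) :
    IsRClosed (Setoid.ker fun x : VPts F f g => x.1 0) := by
  constructor
  · rintro x y ⟨q, u, s, t, hs, ht, hr, hx, hy⟩
    have hq : q ≠ 0 := by
      rintro rfl
      simp at hs
    obtain ⟨c, hc⟩ := H _ (curve_mem f g q u s hs hr)
    have h1 := eq_C q (u 0) hq c hc.symm
    show x.1 0 = y.1 0
    rw [hx, hy]
    show (u 0).eval s / q.eval s = (u 0).eval t / q.eval t
    rw [h1 s hs, h1 t ht]
  · intro x y h
    show x.1 0 = y.1 0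
    have := h (X 0 - C (x.1 0)) fun z hz => by
      have hz' : x.1 0 = z.1 0 := hz
      rw [map_sub, eval_X, eval_C, hz', sub_self]
    rw [map_sub, eval_X, eval_C, sub_eq_zero] at this
    exact this.symm

theorem const_par (H : ∀ v ∈ VPts (RatFunc F) f g, ∃ c : F, RatFunc.C c = v 0)
    {x y : VPts F f g} (h : rEquiv (VPts F f g) x y) : x.1 0 = y.1 0 :=
  rEquiv_le (isRClosed_par f g H) h

theorem finite_par (H : ∀ v ∈ VPts (RatFunc F) f g, ∃ c : F, RatFunc.C c = v 0)
    [Finite (Quotient (rEquiv (VPts F f g)))] : {c : F | ∃ v ∈ VPts F f g, v 0 = c}.Finite := by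
  have : {c : F | ∃ v ∈ VPts F f g, v 0 = c} ⊆ Set.range
      (Quotient.lift (fun x : VPts F f g => x.1 0) fun x y h => const_par f g H h) := by
    rintro a ⟨x, hx, rfl⟩
    exact ⟨Quotient.mk _ ⟨x, hx⟩, rfl⟩
  exact (Set.finite_range _).subset this

theorem spec_const (v : Fin (n + 1) → RatFunc F) (hv : v ∈ VPts (RatFunc F) f g) (c : F)
    (hc : v 0 = RatFunc.C c) : ∃ w ∈ VPts F f g, w 0 = c := by
  obtain ⟨q, u, r, hr, hvi, hmem⟩ := spec_mem f g v hv
  have hq : q ≠ 0 := by
    rintro rfl
    simp at hr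
  exact ⟨_, hmem, eq_C q (u 0) hq c (by rw [← hvi 0, hc]) r hr⟩

end

end Pool.Agent.T2H39.RE
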